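import Mathlib

set_option autoImplicit false

open scoped Matrix ComplexConjugate InnerProductSpace

namespace Pool.Agent.R778

/-- the trace argument -/
theorem trace_zero {n : Type} [Fintype n] [DecidableEq n] (T U Γ : Matrix n n ℂ)
    (hT : IsUnit T) (h1 : Γ * T = - (T * Γ)) (h2 : U * T = T * U) : (Γ * U).trace = 0 := by
  obtain ⟨u, rfl⟩ := hT
  have e : Γ * U = Γ * ((u : Matrix n n ℂ) * U) * (↑u⁻¹ : Matrix n n ℂ) := by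
    rw [← h2, Matrix.mul_assoc, Matrix.mul_assoc, Units.mul_inv, Matrix.mul_one]
  have e2 : (Γ * U).trace = - (Γ * U).trace := by
    conv_lhs => rw [e, ← Matrix.mul_assoc, h1, Matrix.trace_mul_comm]
    rw [Matrix.neg_mul, Matrix.mul_neg, Matrix.trace_neg, Matrix.mul_assoc (u : Matrix n n ℂ) Γ U,
      ← Matrix.mul_assoc (↑u⁻¹ : Matrix n n ℂ), Units.inv_mul, Matrix.one_mul]
  exact self_eq_neg.1 e2

/-- the main estimate -/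
theorem estimate {E Y : Type} [NormedAddCommGroup Y] [InnerProductSpace ℂ Y]
    (A A' : Finset E) (hA : A ⊆ A') (B : E → E → ℝ) (γ nF : E → ℝ)
    (hsymm : ∀ σ ρ, B σ ρ = B ρ σ) (hγ : ∀ σ, γ σ = 1 ∨ γ σ = -1)
    (hodd : ∀ σ ρ, B σ ρ ≠ 0 → γ σ = - γ ρ)
    (b : ℝ) (hb0 : 0 ≤ b) (hb : ∀ σ (A : Finset E), ∑ ρ ∈ A, |B σ ρ| ≤ b)
    (C : ℝ) (hC : 0 ≤ C)
    (op : E → Y →ₗ[ℂ] Y) (X : E → Y)
    (hop1 : ∀ σ ∈ A, ‖op σ (X σ)‖ = nF σ * ‖X σ‖)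
    (hop2 : ∀ σ ∈ A, ∀ ρ ∈ A, B σ ρ ≠ 0 → ‖op σ (X σ) - op ρ (X σ)‖ ≤ C * ‖X σ‖)
    (hop3 : ∀ σ y z, ⟪op σ y, z⟫_ℂ = ⟪y, op σ z⟫_ℂ)
    (s c : ℝ) (hs : 0 < s) (hsc : C * b < s * c)
    (hfar : ∀ σ ∉ A, ∀ ρ ∈ A, B σ ρ ≠ 0 → s * b ≤ nF ρ)
    (hT : ∀ σ ∈ A, (s : ℂ) • ∑ ρ ∈ A, (B σ ρ : ℂ) • X ρ + (γ σ : ℂ) • op σ (X σ) = 0)
    (gap : c * ∑ σ ∈ A, ‖X σ‖ ^ 2 ≤ ∑ σ ∈ A', ‖∑ ρ ∈ A, (B σ ρ : ℂ) • X ρ‖ ^ 2) :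
    ∀ σ ∈ A, X σ = 0 := by
  classical
  set BX : E → Y := fun σ => ∑ ρ ∈ A, (B σ ρ : ℂ) • X ρ with hBX
  have hγ2 : ∀ σ, γ σ ^ 2 = 1 := fun σ => by rcases hγ σ with h | h <;> rw [h] <;> norm_num
  -- step 1
  have s1 : ∀ σ ∈ A, s ^ 2 * ‖BX σ‖ ^ 2 + nF σ ^ 2 * ‖X σ‖ ^ 2 =
      - (2 * s * (γ σ * (⟪BX σ, op σ (X σ)⟫_ℂ).re)) := by
    intro σ hσ
    have h0 := hT σ hσ
    have h1 : ‖(s : ℂ) • BX σ + (γ σ : ℂ) • op σ (X σ)‖ ^ 2 = 0 := by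
      rw [hBX]; rw [h0]; simp
    rw [@norm_add_sq ℂ] at h1
    rw [inner_smul_left, inner_smul_right, norm_smul, norm_smul, hop1 σ hσ] at h1
    simp only [Complex.conj_ofReal, Complex.norm_real, Real.norm_eq_abs, mul_pow, sq_abs, hγ2]
      at h1
    have h2 : RCLike.re ((s : ℂ) * ((γ σ : ℂ) * ⟪BX σ, op σ (X σ)⟫_ℂ)) =
        s * (γ σ * (⟪BX σ, op σ (X σ)⟫_ℂ).re) := by
      change ((s : ℂ) * ((γ σ : ℂ) * ⟪BX σ, op σ (X σ)⟫_ℂ)).re = _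
      rw [Complex.re_ofReal_mul, Complex.re_ofReal_mul]
    rw [h2] at h1
    linarith
  -- step 2
  set Q : ℝ := ∑ σ ∈ A, γ σ * (⟪BX σ, op σ (X σ)⟫_ℂ).re with hQ
  have q1 : Q = ∑ σ ∈ A, ∑ ρ ∈ A, γ σ * B σ ρ * (⟪X ρ, op σ (X σ)⟫_ℂ).re := by
    rw [hQ]
    refine Finset.sum_congr rfl fun σ _ => ?_
    rw [hBX]
    simp only [sum_inner, inner_smul_left, Complex.conj_ofReal, Complex.re_sum,
      Complex.re_ofReal_mul, Finset.mul_sum]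
    exact Finset.sum_congr rfl fun ρ _ => by ring
  have q2 : Q = ∑ σ ∈ A, ∑ ρ ∈ A, - (γ σ * B σ ρ * (⟪X ρ, op ρ (X σ)⟫_ℂ).re) := by
    rw [q1, Finset.sum_comm]
    refine Finset.sum_congr rfl fun σ _ => Finset.sum_congr rfl fun ρ _ => ?_
    by_cases h : B σ ρ = 0
    · rw [hsymm ρ σ, h]; simp
    · rw [hsymm ρ σ, hodd σ ρ h]
      have : (⟪X σ, op ρ (X ρ)⟫_ℂ).re = (⟪X ρ, op ρ (X σ)⟫_ℂ).re := by
        rw [← hop3, ← inner_conj_symm, Complex.conj_re]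
      rw [this]; ring
  have q3 : 2 * Q = ∑ σ ∈ A, ∑ ρ ∈ A,
      γ σ * B σ ρ * (⟪X ρ, op σ (X σ) - op ρ (X σ)⟫_ℂ).re := by
    have : 2 * Q = Q + Q := by ring
    rw [this]
    nth_rewrite 1 [q1]
    rw [q2, ← Finset.sum_add_distrib]
    refine Finset.sum_congr rfl fun σ _ => ?_
    rw [← Finset.sum_add_distrib]
    refine Finset.sum_congr rfl fun ρ _ => ?_
    rw [inner_sub_right, Complex.sub_re]; ring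
  have hcs : ∀ σ ∈ A, ∀ ρ ∈ A, |γ σ * B σ ρ * (⟪X ρ, op σ (X σ) - op ρ (X σ)⟫_ℂ).re| ≤
      |B σ ρ| * (C * ((‖X ρ‖ ^ 2 + ‖X σ‖ ^ 2) / 2)) := by
    intro σ hσ ρ hρ
    by_cases h : B σ ρ = 0
    · rw [h]; simp
    rw [abs_mul, abs_mul]
    have a1 : |γ σ| = 1 := by rcases hγ σ with h | h <;> rw [h] <;> norm_num
    rw [a1, one_mul]
    refine mul_le_mul_of_nonneg_left ?_ (abs_nonneg _)
    calc |(⟪X ρ, op σ (X σ) - op ρ (X σ)⟫_ℂ).re| ≤ ‖⟪X ρ, op σ (X σ) - op ρ (X σ)⟫_ℂ‖ :=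
          Complex.abs_re_le_norm _
      _ ≤ ‖X ρ‖ * ‖op σ (X σ) - op ρ (X σ)‖ := norm_inner_le_norm _ _
      _ ≤ ‖X ρ‖ * (C * ‖X σ‖) :=
          mul_le_mul_of_nonneg_left (hop2 σ hσ ρ hρ h) (norm_nonneg _)
      _ = C * (‖X ρ‖ * ‖X σ‖) := by ring
      _ ≤ C * ((‖X ρ‖ ^ 2 + ‖X σ‖ ^ 2) / 2) := by
          refine mul_le_mul_of_nonneg_left ?_ hC
          nlinarith [sq_nonneg (‖X ρ‖ - ‖X σ‖)]
  have q4 : |2 * Q| ≤ C * b * ∑ σ ∈ A, ‖X σ‖ ^ 2 := by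
    rw [q3]
    calc |∑ σ ∈ A, ∑ ρ ∈ A, γ σ * B σ ρ * (⟪X ρ, op σ (X σ) - op ρ (X σ)⟫_ℂ).re|
        ≤ ∑ σ ∈ A, ∑ ρ ∈ A, |γ σ * B σ ρ * (⟪X ρ, op σ (X σ) - op ρ (X σ)⟫_ℂ).re| := by
          refine (Finset.abs_sum_le_sum_abs _ _).trans ?_
          exact Finset.sum_le_sum fun σ _ => Finset.abs_sum_le_sum_abs _ _
      _ ≤ ∑ σ ∈ A, ∑ ρ ∈ A, |B σ ρ| * (C * ((‖X ρ‖ ^ 2 + ‖X σ‖ ^ 2) / 2)) :=
          Finset.sum_le_sum fun σ hσ => Finset.sum_le_sum fun ρ hρ => hcs σ hσ ρ hρ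
      _ = C / 2 * (∑ σ ∈ A, ∑ ρ ∈ A, |B σ ρ| * ‖X ρ‖ ^ 2) +
          C / 2 * (∑ σ ∈ A, ∑ ρ ∈ A, |B σ ρ| * ‖X σ‖ ^ 2) := by
          rw [Finset.mul_sum, Finset.mul_sum, ← Finset.sum_add_distrib]
          refine Finset.sum_congr rfl fun σ _ => ?_
          rw [Finset.mul_sum, Finset.mul_sum, ← Finset.sum_add_distrib]
          exact Finset.sum_congr rfl fun ρ _ => by ring
      _ = C * (∑ σ ∈ A, (∑ ρ ∈ A, |B σ ρ|) * ‖X σ‖ ^ 2) := by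
          have e1 : ∑ σ ∈ A, ∑ ρ ∈ A, |B σ ρ| * ‖X ρ‖ ^ 2 =
              ∑ σ ∈ A, ∑ ρ ∈ A, |B σ ρ| * ‖X σ‖ ^ 2 := by
            rw [Finset.sum_comm]
            exact Finset.sum_congr rfl fun σ _ => Finset.sum_congr rfl fun ρ _ => by
              rw [hsymm]
          rw [e1]
          simp only [Finset.sum_mul]
          ring
      _ ≤ C * (∑ σ ∈ A, b * ‖X σ‖ ^ 2) := by
          refine mul_le_mul_of_nonneg_left ?_ hC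
          exact Finset.sum_le_sum fun σ _ =>
            mul_le_mul_of_nonneg_right (hb σ A) (sq_nonneg _)
      _ = C * b * ∑ σ ∈ A, ‖X σ‖ ^ 2 := by rw [← Finset.mul_sum]; ring
  -- step 3
  have t1 : ∀ σ, ‖BX σ‖ ^ 2 ≤ b * ∑ ρ ∈ A, |B σ ρ| * ‖X ρ‖ ^ 2 := by
    intro σ
    have h1 : ‖BX σ‖ ≤ ∑ ρ ∈ A, |B σ ρ| * ‖X ρ‖ := by
      refine (norm_sum_le _ _).trans (Finset.sum_le_sum fun ρ _ => ?_)
      rw [norm_smul, Complex.norm_real, Real.norm_eq_abs]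
    have h2 : (∑ ρ ∈ A, |B σ ρ| * ‖X ρ‖) ^ 2 ≤
        (∑ ρ ∈ A, |B σ ρ|) * ∑ ρ ∈ A, |B σ ρ| * ‖X ρ‖ ^ 2 := by
      refine Finset.sum_sq_le_sum_mul_sum_of_sq_le_mul A (fun ρ _ => abs_nonneg _)
        (fun ρ _ => mul_nonneg (abs_nonneg _) (sq_nonneg _)) (fun ρ _ => le_of_eq (by ring))
    calc ‖BX σ‖ ^ 2 ≤ (∑ ρ ∈ A, |B σ ρ| * ‖X ρ‖) ^ 2 := by
          exact pow_le_pow_left₀ (norm_nonneg _) h1 2
      _ ≤ _ := h2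
      _ ≤ _ := mul_le_mul_of_nonneg_right (hb σ A)
          (Finset.sum_nonneg fun ρ _ => mul_nonneg (abs_nonneg _) (sq_nonneg _))
  have t2 : s ^ 2 * ∑ σ ∈ A' \ A, ‖BX σ‖ ^ 2 ≤ ∑ ρ ∈ A, nF ρ ^ 2 * ‖X ρ‖ ^ 2 := by
    calc s ^ 2 * ∑ σ ∈ A' \ A, ‖BX σ‖ ^ 2
        ≤ s ^ 2 * ∑ σ ∈ A' \ A, b * ∑ ρ ∈ A, |B σ ρ| * ‖X ρ‖ ^ 2 :=
          mul_le_mul_of_nonneg_left (Finset.sum_le_sum fun σ _ => t1 σ) (sq_nonneg _)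
      _ = ∑ ρ ∈ A, (s ^ 2 * b * ∑ σ ∈ A' \ A, |B σ ρ|) * ‖X ρ‖ ^ 2 := by
          rw [← Finset.mul_sum, Finset.sum_comm]
          simp only [Finset.mul_sum, Finset.sum_mul]
          exact Finset.sum_congr rfl fun ρ _ => Finset.sum_congr rfl fun σ _ => by ring
      _ ≤ ∑ ρ ∈ A, nF ρ ^ 2 * ‖X ρ‖ ^ 2 := by
          refine Finset.sum_le_sum fun ρ hρ => mul_le_mul_of_nonneg_right ?_ (sq_nonneg _)
          by_cases h : ∃ σ ∈ A' \ A, B σ ρ ≠ 0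
          · obtain ⟨σ, hσ, hσρ⟩ := h
            have h1 := hfar σ (Finset.mem_sdiff.1 hσ).2 ρ hρ hσρ
            have h2 : ∑ σ ∈ A' \ A, |B σ ρ| ≤ b := by
              refine le_trans (le_of_eq ?_) (hb ρ (A' \ A))
              exact Finset.sum_congr rfl fun σ _ => by rw [hsymm]
            calc s ^ 2 * b * ∑ σ ∈ A' \ A, |B σ ρ| ≤ s ^ 2 * b * b :=
                  mul_le_mul_of_nonneg_left h2 (mul_nonneg (sq_nonneg _) hb0)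
              _ = (s * b) ^ 2 := by ring
              _ ≤ nF ρ ^ 2 := pow_le_pow_left₀ (mul_nonneg hs.le hb0) h1 2
          · push Not at h
            have : ∑ σ ∈ A' \ A, |B σ ρ| = 0 :=
              Finset.sum_eq_zero fun σ hσ => by rw [h σ hσ, abs_zero]
            rw [this, mul_zero]
            exact sq_nonneg _
  -- step 4
  have u1 : s ^ 2 * ∑ σ ∈ A, ‖BX σ‖ ^ 2 + ∑ σ ∈ A, nF σ ^ 2 * ‖X σ‖ ^ 2 = - (s * (2 * Q)) := by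
    rw [hQ, Finset.mul_sum, ← Finset.sum_add_distrib, Finset.sum_congr rfl s1,
      Finset.sum_neg_distrib]
    congr 1
    rw [Finset.mul_sum, Finset.mul_sum]
    exact Finset.sum_congr rfl fun σ _ => by ring
  have u2 : ∑ σ ∈ A', ‖BX σ‖ ^ 2 = ∑ σ ∈ A' \ A, ‖BX σ‖ ^ 2 + ∑ σ ∈ A, ‖BX σ‖ ^ 2 :=
    (Finset.sum_sdiff hA).symm
  have u3 : s ^ 2 * (c * ∑ σ ∈ A, ‖X σ‖ ^ 2) ≤ s * (C * b * ∑ σ ∈ A, ‖X σ‖ ^ 2) := by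
    calc s ^ 2 * (c * ∑ σ ∈ A, ‖X σ‖ ^ 2) ≤ s ^ 2 * ∑ σ ∈ A', ‖BX σ‖ ^ 2 :=
          mul_le_mul_of_nonneg_left gap (sq_nonneg _)
      _ = s ^ 2 * ∑ σ ∈ A' \ A, ‖BX σ‖ ^ 2 + s ^ 2 * ∑ σ ∈ A, ‖BX σ‖ ^ 2 := by
          rw [u2, mul_add]
      _ ≤ - (s * (2 * Q)) := by rw [← u1]; linarith
      _ ≤ s * |2 * Q| := by
          have := neg_abs_le (2 * Q)
          nlinarith
      _ ≤ s * (C * b * ∑ σ ∈ A, ‖X σ‖ ^ 2) := mul_le_mul_of_nonneg_left q4 hs.le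
  have u4 : ∑ σ ∈ A, ‖X σ‖ ^ 2 ≤ 0 := by
    by_contra hcon
    push Not at hcon
    have h1 : 0 < (s * c - C * b) * ∑ σ ∈ A, ‖X σ‖ ^ 2 := mul_pos (by linarith) hcon
    have h2 : 0 < s * ((s * c - C * b) * ∑ σ ∈ A, ‖X σ‖ ^ 2) := mul_pos hs h1
    nlinarith
  have u5 : ∑ σ ∈ A, ‖X σ‖ ^ 2 = 0 :=
    le_antisymm u4 (Finset.sum_nonneg fun σ _ => sq_nonneg _)
  intro σ hσ
  have := (Finset.sum_eq_zero_iff_of_nonneg (fun σ _ => sq_nonneg ‖X σ‖)).1 u5 σ hσ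
  simpa using this

end Pool.Agent.R778
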