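import Pool.Agent.R778.Gap2

set_option autoImplicit false
set_option linter.unusedSectionVars false

open scoped Matrix ENNReal InnerProductSpace

namespace Pool.Agent.R778.ZS

open Pool.Agent.H919R4.ZS

section eval

variable {G : Type} [Group G]

lemma lregL_adjoint (g : G) :
    ContinuousLinearMap.adjoint (lregL g : L2 G →L[ℂ] L2 G) = lregL g⁻¹ := by
  symm
  rw [ContinuousLinearMap.eq_adjoint_iff]
  intro u v
  rw [lp.inner_eq_tsum, lp.inner_eq_tsum]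
  rw [← (Equiv.mulLeft g).tsum_eq (fun x => inner ℂ (u x) ((lregL g v : L2 G) x))]
  refine tsum_congr fun x => ?_
  rw [lregL_apply, lregL_apply, inv_inv]
  simp

lemma L_eq (a : MonoidAlgebra ℤ G) :
    L a = ∑ g ∈ a.coeff.support, (a.coeff g : ℂ) • lregL g := by
  conv_lhs => rw [← MonoidAlgebra.sum_coeff_single a]
  rw [Finsupp.sum, map_sum]
  refine Finset.sum_congr rfl fun g _ => ?_
  rw [L_single, Int.cast_smul_eq_zsmul]

lemma adjoint_L_apply (a : MonoidAlgebra ℤ G) (v : L2 G) (x : G) :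
    ContinuousLinearMap.adjoint (L a) v x =
      ∑ g ∈ a.coeff.support, (a.coeff g : ℂ) * v (g * x) := by
  rw [L_eq, map_sum, sum_apply, lp.coeFn_sum, Finset.sum_apply]
  refine Finset.sum_congr rfl fun g _ => ?_
  rw [LinearIsometryEquiv.map_smulₛₗ, lregL_adjoint, smul_apply, lp.coeFn_smul, Pi.smul_apply,
    lregL_apply, inv_inv]
  simp

lemma L_apply (a : MonoidAlgebra ℤ G) (v : L2 G) (x : G) :
    L a v x = ∑ g ∈ a.coeff.support, (a.coeff g : ℂ) * v (g⁻¹ * x) := by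
  rw [L_eq, sum_apply, lp.coeFn_sum, Finset.sum_apply]
  refine Finset.sum_congr rfl fun g _ => ?_
  rw [smul_apply, lp.coeFn_smul, Pi.smul_apply, lregL_apply, smul_eq_mul]

lemma hasSum_norm_sq (v : L2 G) : HasSum (fun x => ‖v x‖ ^ 2) (‖v‖ ^ 2) := by
  have h := lp.hasSum_norm (p := 2) (by norm_num) v
  have h4 : (2 : ENNReal).toReal = ((2 : ℕ) : ℝ) := by norm_num
  simp only [h4, Real.rpow_natCast] at h
  exact h

variable {K : Type} [Fintype K] [DecidableEq K] [DecidableEq G]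

lemma sum_norm_sq (g : G × K → ℂ) (A : Finset (G × K)) (hg : ∀ σ, σ ∉ A → g σ = 0)
    (w : K → L2 G) (hw : ∀ κ h, w κ h = g (h⁻¹, κ)) :
    ∑ κ, ‖w κ‖ ^ 2 = ∑ σ ∈ A, ‖g σ‖ ^ 2 := by
  have h1 : ∀ κ, ‖w κ‖ ^ 2 = ∑ h ∈ A.image Prod.fst, ‖g (h, κ)‖ ^ 2 := by
    intro κ
    rw [← (hasSum_norm_sq (w κ)).tsum_eq]
    simp only [hw]
    have e := (Equiv.inv G).tsum_eq (fun h => ‖g (h, κ)‖ ^ 2)
    simp only [Equiv.inv_apply] at e
    rw [e]
    refine tsum_eq_sum fun h hh => ?_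
    rw [hg (h, κ) fun h2 => hh (Finset.mem_image_of_mem Prod.fst h2)]
    simp
  simp only [h1]
  rw [Finset.sum_comm, ← Finset.sum_product' (A.image Prod.fst) Finset.univ
    (fun h κ => ‖g (h, κ)‖ ^ 2)]
  refine (Finset.sum_subset ?_ ?_).symm
  · intro σ hσ
    exact Finset.mem_product.2 ⟨Finset.mem_image_of_mem _ hσ, Finset.mem_univ _⟩
  · intro σ _ hσ
    rw [hg σ hσ]
    simp

/-- expansion of a row of incidence numbers -/
lemma row_sum {R : Type} [CommRing R] (b : K → K → MonoidAlgebra ℤ G) (A : Finset (G × K))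
    (F : ℤ → R) (hF : F 0 = 0) (x : G × K → R) (hx : ∀ σ, σ ∉ A → x σ = 0) (a : G) (κ : K) :
    ∑ ρ ∈ A, F ((b κ ρ.2).coeff (a⁻¹ * ρ.1)) * x ρ =
      ∑ μ, ∑ g ∈ (b κ μ).coeff.support, F ((b κ μ).coeff g) * x (a * g, μ) := by
  have h1 : ∀ (μ : K) (g : G), x (a * g, μ) = ∑ ρ ∈ A, if ρ = (a * g, μ) then x ρ else 0 := by
    intro μ g
    rw [Finset.sum_ite_eq' A (a * g, μ) x]
    split_ifs with h
    · rfl
    · exact hx _ h
  have h2 : ∀ μ, ∑ g ∈ (b κ μ).coeff.support, F ((b κ μ).coeff g) * x (a * g, μ) =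
      ∑ ρ ∈ A, ∑ g ∈ (b κ μ).coeff.support,
        F ((b κ μ).coeff g) * if ρ = (a * g, μ) then x ρ else 0 := by
    intro μ
    rw [Finset.sum_comm]
    exact Finset.sum_congr rfl fun g _ => by rw [h1 μ g, Finset.mul_sum]
  simp only [h2]
  rw [Finset.sum_comm]
  refine Finset.sum_congr rfl fun ρ _ => ?_
  rw [Finset.sum_eq_single ρ.2]
  · rw [Finset.sum_eq_single (a⁻¹ * ρ.1)]
    · rw [if_pos (by rw [mul_inv_cancel_left])]
    · intro g _ hg
      rw [if_neg, mul_zero]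
      intro h
      apply hg
      rw [h, inv_mul_cancel_left]
    · intro h
      rw [Finsupp.notMem_support_iff.1 h, hF, zero_mul]
  · intro μ _ hμ
    refine Finset.sum_eq_zero fun g _ => ?_
    rw [if_neg, mul_zero]
    intro h
    exact hμ (congrArg Prod.snd h).symm
  · intro h; exact absurd (Finset.mem_univ _) h

/-- expansion of a column of incidence numbers -/
lemma col_sum {R : Type} [CommRing R] (b : K → K → MonoidAlgebra ℤ G) (A : Finset (G × K))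
    (F : ℤ → R) (hF : F 0 = 0) (x : G × K → R) (hx : ∀ σ, σ ∉ A → x σ = 0) (a : G) (μ : K) :
    ∑ σ ∈ A, F ((b σ.2 μ).coeff (σ.1⁻¹ * a)) * x σ =
      ∑ κ, ∑ g ∈ (b κ μ).coeff.support, F ((b κ μ).coeff g) * x (a * g⁻¹, κ) := by
  have h1 : ∀ (κ : K) (g : G), x (a * g⁻¹, κ) = ∑ ρ ∈ A, if ρ = (a * g⁻¹, κ) then x ρ else 0 := by
    intro κ g
    rw [Finset.sum_ite_eq' A (a * g⁻¹, κ) x]
    split_ifs with h
    · rfl
    · exact hx _ h
  have h2 : ∀ κ, ∑ g ∈ (b κ μ).coeff.support, F ((b κ μ).coeff g) * x (a * g⁻¹, κ) =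
      ∑ ρ ∈ A, ∑ g ∈ (b κ μ).coeff.support,
        F ((b κ μ).coeff g) * if ρ = (a * g⁻¹, κ) then x ρ else 0 := by
    intro κ
    rw [Finset.sum_comm]
    exact Finset.sum_congr rfl fun g _ => by rw [h1 κ g, Finset.mul_sum]
  simp only [h2]
  rw [Finset.sum_comm]
  refine Finset.sum_congr rfl fun ρ _ => ?_
  rw [Finset.sum_eq_single ρ.2]
  · rw [Finset.sum_eq_single (ρ.1⁻¹ * a)]
    · rw [if_pos]
      simp
    · intro g _ hg
      rw [if_neg, mul_zero]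
      intro h
      apply hg
      rw [h]
      simp
    · intro h
      rw [Finsupp.notMem_support_iff.1 h, hF, zero_mul]
  · intro κ _ hκ
    refine Finset.sum_eq_zero fun g _ => ?_
    rw [if_neg, mul_zero]
    intro h
    exact hκ (congrArg Prod.snd h).symm
  · intro h; exact absurd (Finset.mem_univ _) h

end eval

variable {G : Type} [Group G] (X : FinRes G)

/-- the symmetric matrix of incidence numbers -/
noncomputable def symB (σ ρ : Cell X) : ℝ := (inc X σ ρ : ℝ) + (inc X ρ σ : ℝ)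

/-- the sum of the absolute values of all coefficients of the boundary matrix -/
noncomputable def bnorm : ℝ :=
  ∑ κ : Bas X, ∑ μ : Bas X, ∑ g ∈ (bmat X κ μ).coeff.support, |((bmat X κ μ).coeff g : ℝ)|

lemma bnorm_nonneg : 0 ≤ bnorm X :=
  Finset.sum_nonneg fun _ _ => Finset.sum_nonneg fun _ _ => Finset.sum_nonneg fun _ _ =>
    abs_nonneg _

lemma row_bound (σ : Cell X) (A : Finset (Cell X)) : ∑ ρ ∈ A, |symB X σ ρ| ≤ 2 * bnorm X := by
  classical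
  have h0 : ∀ ρ, |symB X σ ρ| ≤ |(inc X σ ρ : ℝ)| + |(inc X ρ σ : ℝ)| := fun ρ => abs_add_le _ _
  have h1 : ∑ ρ ∈ A, |(inc X σ ρ : ℝ)| ≤ bnorm X := by
    have e := row_sum (bmat X) A (fun z : ℤ => |(z : ℝ)|) (by simp)
      (fun ρ => if ρ ∈ A then (1 : ℝ) else 0) (fun ρ h => if_neg h) σ.1 σ.2
    have e2 : ∑ ρ ∈ A, |(inc X σ ρ : ℝ)| = ∑ ρ ∈ A,
        |(((bmat X σ.2 ρ.2).coeff (σ.1⁻¹ * ρ.1) : ℤ) : ℝ)| * (if ρ ∈ A then (1 : ℝ) else 0) := by
      refine Finset.sum_congr rfl fun ρ hρ => ?_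
      rw [if_pos hρ, mul_one]; rfl
    rw [e2, e]
    calc ∑ μ, ∑ g ∈ (bmat X σ.2 μ).coeff.support,
          |((bmat X σ.2 μ).coeff g : ℝ)| * (if (σ.1 * g, μ) ∈ A then (1 : ℝ) else 0)
        ≤ ∑ μ, ∑ g ∈ (bmat X σ.2 μ).coeff.support, |((bmat X σ.2 μ).coeff g : ℝ)| := by
          refine Finset.sum_le_sum fun μ _ => Finset.sum_le_sum fun g _ => ?_
          split_ifs
          · rw [mul_one]
          · rw [mul_zero]; exact abs_nonneg _
      _ ≤ bnorm X := Finset.single_le_sum (f := fun κ => ∑ μ,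
            ∑ g ∈ (bmat X κ μ).coeff.support, |((bmat X κ μ).coeff g : ℝ)|)
            (fun _ _ => Finset.sum_nonneg fun _ _ => Finset.sum_nonneg fun _ _ => abs_nonneg _)
            (Finset.mem_univ σ.2)
  have h2 : ∑ ρ ∈ A, |(inc X ρ σ : ℝ)| ≤ bnorm X := by
    have e := col_sum (bmat X) A (fun z : ℤ => |(z : ℝ)|) (by simp)
      (fun ρ => if ρ ∈ A then (1 : ℝ) else 0) (fun ρ h => if_neg h) σ.1 σ.2
    have e2 : ∑ ρ ∈ A, |(inc X ρ σ : ℝ)| = ∑ ρ ∈ A,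
        |(((bmat X ρ.2 σ.2).coeff (ρ.1⁻¹ * σ.1) : ℤ) : ℝ)| * (if ρ ∈ A then (1 : ℝ) else 0) := by
      refine Finset.sum_congr rfl fun ρ hρ => ?_
      rw [if_pos hρ, mul_one]; rfl
    rw [e2, e]
    refine Finset.sum_le_sum fun κ _ => ?_
    calc ∑ g ∈ (bmat X κ σ.2).coeff.support,
          |((bmat X κ σ.2).coeff g : ℝ)| * (if (σ.1 * g⁻¹, κ) ∈ A then (1 : ℝ) else 0)
        ≤ ∑ g ∈ (bmat X κ σ.2).coeff.support, |((bmat X κ σ.2).coeff g : ℝ)| := by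
          refine Finset.sum_le_sum fun g _ => ?_
          split_ifs
          · rw [mul_one]
          · rw [mul_zero]; exact abs_nonneg _
      _ ≤ _ := Finset.single_le_sum (f := fun μ =>
            ∑ g ∈ (bmat X κ μ).coeff.support, |((bmat X κ μ).coeff g : ℝ)|)
            (fun _ _ => Finset.sum_nonneg fun _ _ => abs_nonneg _)
            (Finset.mem_univ σ.2)
  calc ∑ ρ ∈ A, |symB X σ ρ| ≤ ∑ ρ ∈ A, (|(inc X σ ρ : ℝ)| + |(inc X ρ σ : ℝ)|) :=
        Finset.sum_le_sum fun ρ _ => h0 ρ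
    _ = ∑ ρ ∈ A, |(inc X σ ρ : ℝ)| + ∑ ρ ∈ A, |(inc X ρ σ : ℝ)| := Finset.sum_add_distrib
    _ ≤ 2 * bnorm X := by linarith

lemma finite_nb (ρ : Cell X) : {σ : Cell X | symB X σ ρ ≠ 0}.Finite := by
  classical
  have h : {σ : Cell X | symB X σ ρ ≠ 0} ⊆
      (⋃ κ : Bas X, (fun g => ((ρ.1 * g⁻¹, κ) : Cell X)) ''
        ((bmat X κ ρ.2).coeff.support : Set G)) ∪
      (⋃ κ : Bas X, (fun g => ((ρ.1 * g, κ) : Cell X)) ''
        ((bmat X ρ.2 κ).coeff.support : Set G)) := by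
    intro σ hσ
    by_cases h1 : inc X σ ρ = 0
    · have h2 : inc X ρ σ ≠ 0 := by
        intro h2
        apply hσ
        rw [symB, h1, h2]; simp
      refine Or.inr (Set.mem_iUnion.2 ⟨σ.2, ρ.1⁻¹ * σ.1, ?_, ?_⟩)
      · exact Finsupp.mem_support_iff.2 h2
      · simp
    · refine Or.inl (Set.mem_iUnion.2 ⟨σ.2, σ.1⁻¹ * ρ.1, ?_, ?_⟩)
      · exact Finsupp.mem_support_iff.2 h1
      · simp
  refine Set.Finite.subset ?_ h
  refine Set.Finite.union ?_ ?_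
  · exact Set.finite_iUnion fun κ => (Finset.finite_toSet _).image _
  · exact Set.finite_iUnion fun κ => (Finset.finite_toSet _).image _

theorem gap_cells (h : ∀ i ≤ X.len, Subsingleton (X.homology (toRed G) i)) :
    ∃ c : ℝ, 0 < c ∧ ∀ (A A' : Finset (Cell X)), A ⊆ A' →
      (∀ ρ ∈ A, (finite_nb X ρ).toFinset ⊆ A') → ∀ x : Cell X → ℂ, (∀ σ, σ ∉ A → x σ = 0) →
      c * ∑ σ ∈ A, ‖x σ‖ ^ 2 ≤ ∑ σ ∈ A', ‖∑ ρ ∈ A, (symB X σ ρ : ℂ) * x ρ‖ ^ 2 := by
  classical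
  obtain ⟨s, hs⟩ := exists_opcontr X h
  obtain ⟨c, hc, hgap⟩ := abstract_gap ((Matrix.of (bmat X)).map (L (G := G))) s
    (map_bmat_mul X L) hs
  refine ⟨c, hc, fun A A' hAA hnb x hx => ?_⟩
  have hmem : ∀ κ : Bas X, Memℓp (fun h : G => x (h⁻¹, κ)) 2 := by
    intro κ
    refine memℓp_gen ?_
    refine summable_of_ne_finset_zero (s := (A.image Prod.fst).image (fun g => g⁻¹)) fun h hh => ?_
    rw [hx (h⁻¹, κ)]
    · simp
    · intro h2
      apply hh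
      refine Finset.mem_image.2 ⟨h⁻¹, Finset.mem_image_of_mem Prod.fst h2, inv_inv h⟩
  let v : Bas X → L2 G := fun κ => ⟨fun h => x (h⁻¹, κ), hmem κ⟩
  have hv : ∀ κ h, v κ h = x (h⁻¹, κ) := fun _ _ => rfl
  have h1 := hgap v
  rw [sum_norm_sq x A hx v hv] at h1
  refine h1.trans (le_of_eq ?_)
  refine sum_norm_sq (fun σ => ∑ ρ ∈ A, (symB X σ ρ : ℂ) * x ρ) A' ?_ _ ?_
  · intro σ hσ
    refine Finset.sum_eq_zero fun ρ hρ => ?_
    have : symB X σ ρ = 0 := by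
      by_contra hne
      exact hσ (hnb ρ hρ ((finite_nb X ρ).mem_toFinset.2 hne))
    rw [this]; simp
  · intro κ h
    rw [lp.coeFn_add, Pi.add_apply, lp.coeFn_sum, lp.coeFn_sum, Finset.sum_apply,
      Finset.sum_apply]
    have e1 := row_sum (bmat X) A (fun z : ℤ => (z : ℂ)) (by simp) x hx h⁻¹ κ
    have e2 := col_sum (bmat X) A (fun z : ℤ => (z : ℂ)) (by simp) x hx h⁻¹ κ
    have e3 : ∑ ρ ∈ A, (symB X (h⁻¹, κ) ρ : ℂ) * x ρ =
        ∑ ρ ∈ A, (((bmat X κ ρ.2).coeff ((h⁻¹)⁻¹ * ρ.1) : ℤ) : ℂ) * x ρ +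
        ∑ ρ ∈ A, (((bmat X ρ.2 κ).coeff (ρ.1⁻¹ * h⁻¹) : ℤ) : ℂ) * x ρ := by
      rw [← Finset.sum_add_distrib]
      refine Finset.sum_congr rfl fun ρ _ => ?_
      rw [symB, inc, inc]
      push_cast
      ring
    rw [e3, e1, e2]
    congr 1
    · refine Finset.sum_congr rfl fun μ _ => ?_
      rw [Matrix.map_apply, Matrix.of_apply, L_apply]
      refine Finset.sum_congr rfl fun g _ => ?_
      rw [hv, mul_inv_rev, inv_inv]
    · refine Finset.sum_congr rfl fun μ _ => ?_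
      rw [Matrix.map_apply, Matrix.of_apply, adjoint_L_apply]
      refine Finset.sum_congr rfl fun g _ => ?_
      rw [hv, mul_inv_rev]

end Pool.Agent.R778.ZS
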