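import Pool.Agent.R778.Par2

/-!
Reflections of the universal cover of a finite aspherical complex.
-/

set_option autoImplicit false
set_option linter.unusedSectionVars false

open scoped InnerProductSpace

namespace Pool.Agent.R778.ZS

open Pool.Agent.H919R4.ZS (FinRes toRed)

variable {G : Type} [Group G]

/-- Two cells of the universal cover are adjacent if one of them occurs in the cellular boundary
of the other one. -/
def Adj (X : FinRes G) (σ ρ : Cell X) : Prop := inc X σ ρ ≠ 0 ∨ inc X ρ σ ≠ 0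

/-- The deck transformation given by `g`. -/
def deck {X : FinRes G} (g : G) (σ : Cell X) : Cell X := (g * σ.1, σ.2)

/-- A reflection of the universal cover of `M`: a cellular automorphism `perm` of order two,
together with a function which tells on which side of the wall (the cells with `side = 0`) a cell
lies. The automorphism exchanges the two sides, and adjacent cells do not lie on opposite sides. -/
structure Reflection (X : FinRes G) extends CellAut X where
  /-- the side (`1` or `-1`), or `0` for the cells of the wall -/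
  side : Cell X → SignType
  /-- the order is two -/
  perm_perm : ∀ σ, perm (perm σ) = σ
  /-- the two sides are exchanged -/
  side_perm : ∀ σ, side (perm σ) = -side σ
  /-- the wall separates its two sides -/
  side_adj : ∀ σ ρ, inc X σ ρ ≠ 0 → side σ = 0 ∨ side ρ = 0 ∨ side σ = side ρ

/-- The wall of a reflection. -/
def Reflection.wall {X : FinRes G} (r : Reflection X) : Set (Cell X) := {σ | r.side σ = 0}

variable {X : FinRes G}

/-- composition of cellular automorphisms -/
def CellAut.comp (φ ψ : CellAut X) : CellAut X where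
  perm := φ.perm * ψ.perm
  sign σ := φ.sign (ψ.perm σ) * ψ.sign σ
  dim_eq σ := by rw [Equiv.Perm.mul_apply, φ.dim_eq, ψ.dim_eq]
  inc_eq σ ρ := by
    rw [Equiv.Perm.mul_apply, Equiv.Perm.mul_apply, φ.inc_eq, ψ.inc_eq]
    push_cast
    ring

/-- the identity -/
def CellAut.one (X : FinRes G) : CellAut X where
  perm := 1
  sign _ := 1
  dim_eq _ := rfl
  inc_eq σ ρ := by simp

/-- product of a list of reflections -/
def prodAut {k : ℕ} (r : Fin k → Reflection X) : List (Fin k) → CellAut X
  | [] => CellAut.one X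
  | i :: l => (r i).toCellAut.comp (prodAut r l)

section prod
variable {k : ℕ} (r : Fin k → Reflection X)
  (hcomm : ∀ i j σ, (r i).perm ((r j).perm σ) = (r j).perm ((r i).perm σ))
  (hside : ∀ i j, i ≠ j → ∀ σ, (r i).side ((r j).perm σ) = (r i).side σ)

lemma prodAut_cons (i : Fin k) (l : List (Fin k)) (σ : Cell X) :
    (prodAut r (i :: l)).perm σ = (r i).perm ((prodAut r l).perm σ) := rfl

include hcomm in
lemma prodAut_comm (l : List (Fin k)) (i : Fin k) (σ : Cell X) :
    (prodAut r l).perm ((r i).perm σ) = (r i).perm ((prodAut r l).perm σ) := by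
  induction l with
  | nil => rfl
  | cons j l ih => rw [prodAut_cons, prodAut_cons, ih, hcomm]

include hcomm in
lemma prodAut_sq (l : List (Fin k)) (σ : Cell X) :
    (prodAut r l).perm ((prodAut r l).perm σ) = σ := by
  induction l with
  | nil => rfl
  | cons j l ih =>
    rw [prodAut_cons, prodAut_cons, prodAut_comm r hcomm, (r j).perm_perm, ih]

include hside in
lemma prodAut_side (l : List (Fin k)) (hl : l.Nodup) (i : Fin k) (σ : Cell X) :
    (r i).side ((prodAut r l).perm σ) = if i ∈ l then -(r i).side σ else (r i).side σ := by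
  induction l with
  | nil => simp [prodAut, CellAut.one]
  | cons j l ih =>
    have hj := List.nodup_cons.1 hl
    rw [prodAut_cons]
    by_cases hij : i = j
    · subst hij
      rw [(r i).side_perm, ih hj.2, if_neg hj.1, if_pos (by simp)]
    · rw [hside i j hij, ih hj.2]
      simp [hij]

end prod

/-! ### neighbourhoods in the adjacency graph -/

lemma Adj.symm' {σ ρ : Cell X} (h : Adj X σ ρ) : Adj X ρ σ := Or.symm h

/-- iterated neighbourhoods of a set of cells -/
def nbh (X : FinRes G) (S : Set (Cell X)) : ℕ → Set (Cell X)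
  | 0 => S
  | n + 1 => nbh X S n ∪ {ρ | ∃ σ ∈ nbh X S n, Adj X σ ρ}

lemma nbh_mono (S : Set (Cell X)) {m n : ℕ} (h : m ≤ n) : nbh X S m ⊆ nbh X S n := by
  induction h with
  | refl => exact subset_rfl
  | step _ ih => exact ih.trans Set.subset_union_left

lemma adj_iff_symB (σ ρ : Cell X) : Adj X σ ρ ↔ symB X σ ρ ≠ 0 := by
  constructor
  · rintro (h | h)
    · have h3 : inc X ρ σ = 0 := by
        by_contra h3
        have e1 := dim_of_inc h
        have e2 := dim_of_inc h3
        omega
      rw [symB, h3]; simpa using h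
    · have h3 : inc X σ ρ = 0 := by
        by_contra h3
        have e1 := dim_of_inc h
        have e2 := dim_of_inc h3
        omega
      rw [symB, h3]; simpa using h
  · intro h
    by_contra hc
    unfold Adj at hc
    push Not at hc
    apply h
    rw [symB, hc.1, hc.2]; simp

lemma nbh_finite {S : Set (Cell X)} (hS : S.Finite) (n : ℕ) : (nbh X S n).Finite := by
  induction n with
  | zero => exact hS
  | succ n ih =>
    refine ih.union ?_
    have : {ρ | ∃ σ ∈ nbh X S n, Adj X σ ρ} ⊆ ⋃ σ ∈ nbh X S n, {ρ | symB X ρ σ ≠ 0} := by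
      rintro ρ ⟨σ, hσ, h⟩
      exact Set.mem_biUnion hσ ((adj_iff_symB ρ σ).1 h.symm')
    exact (ih.biUnion fun σ _ => finite_nb X σ).subset this

/-- a permutation preserving adjacency maps neighbourhoods to neighbourhoods -/
lemma nbh_image (e : Equiv.Perm (Cell X)) (he : ∀ σ ρ, Adj X (e σ) (e ρ) ↔ Adj X σ ρ)
    (S : Set (Cell X)) (n : ℕ) (σ : Cell X) :
    e σ ∈ nbh X (e '' S) n ↔ σ ∈ nbh X S n := by
  induction n generalizing σ with
  | zero =>
    constructor
    · rintro ⟨ρ, hρ, h⟩
      rwa [← e.injective h]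
    · exact fun h => ⟨σ, h, rfl⟩
  | succ n ih =>
    constructor
    · rintro (h | ⟨ρ, hρ, h⟩)
      · exact Or.inl ((ih σ).1 h)
      · obtain ⟨ρ', rfl⟩ := e.surjective ρ
        exact Or.inr ⟨ρ', (ih ρ').1 hρ, (he _ _).1 h⟩
    · rintro (h | ⟨ρ, hρ, h⟩)
      · exact Or.inl ((ih σ).2 h)
      · exact Or.inr ⟨e ρ, (ih ρ).2 hρ, (he _ _).2 h⟩

lemma nbh_exists {S : Set (Cell X)} {n : ℕ} {σ : Cell X} (h : σ ∈ nbh X S n) :
    ∃ ρ ∈ S, ρ ∈ nbh X {σ} n := by
  induction n generalizing S with
  | zero => exact ⟨σ, h, rfl⟩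
  | succ n ih =>
    -- `nbh S (n+1) = nbh (nbh S 1) n`
    have key : ∀ (n : ℕ) (S : Set (Cell X)), nbh X S (n + 1) = nbh X (nbh X S 1) n := by
      intro n
      induction n with
      | zero => intro S; rfl
      | succ n ih2 =>
        intro S
        change nbh X S (n + 1) ∪ {ρ | ∃ σ ∈ nbh X S (n + 1), Adj X σ ρ} = _
        rw [ih2 S]; rfl
    rw [key] at h
    obtain ⟨ρ, hρ, h1⟩ := ih h
    rcases hρ with hρ | ⟨κ, hκ, h2⟩
    · exact ⟨ρ, hρ, nbh_mono _ (Nat.le_succ n) h1⟩
    · exact ⟨κ, hκ, Or.inr ⟨ρ, h1, h2.symm'⟩⟩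

lemma nbh_of_conn (hconn : ∀ σ ρ : Cell X, Relation.ReflTransGen (Adj X) σ ρ)
    {S : Set (Cell X)} (hS : S.Nonempty) (σ : Cell X) : ∃ n, σ ∈ nbh X S n := by
  obtain ⟨ρ, hρ⟩ := hS
  have h := hconn ρ σ
  induction h with
  | refl => exact ⟨0, hρ⟩
  | tail _ h ih =>
    obtain ⟨n, hn⟩ := ih
    exact ⟨n + 1, Or.inr ⟨_, hn, h⟩⟩

/-- the distance of a cell from a set of cells -/
noncomputable def lev (X : FinRes G) (S : Set (Cell X)) (σ : Cell X) : ℕ := sInf {n | σ ∈ nbh X S n}

section lev
variable (hconn : ∀ σ ρ : Cell X, Relation.ReflTransGen (Adj X) σ ρ)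
  {S : Set (Cell X)} (hS : S.Nonempty)

include hconn hS in
lemma mem_nbh_lev (σ : Cell X) : σ ∈ nbh X S (lev X S σ) :=
  Nat.sInf_mem (nbh_of_conn hconn hS σ)

lemma lev_le {n : ℕ} {σ : Cell X} (h : σ ∈ nbh X S n) : lev X S σ ≤ n := Nat.sInf_le h

include hconn hS in
lemma lev_adj {σ ρ : Cell X} (h : Adj X σ ρ) : lev X S ρ ≤ lev X S σ + 1 :=
  lev_le (Or.inr ⟨σ, mem_nbh_lev hconn hS σ, h⟩)

lemma lev_of_mem {σ : Cell X} (h : σ ∈ S) : lev X S σ = 0 :=
  Nat.le_zero.1 (lev_le (n := 0) h)

lemma lev_image (e : Equiv.Perm (Cell X)) (he : ∀ σ ρ, Adj X (e σ) (e ρ) ↔ Adj X σ ρ)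
    (hS : e '' S = S) (σ : Cell X) : lev X S (e σ) = lev X S σ := by
  unfold lev
  congr 1
  ext n
  have := nbh_image e he S n σ
  rw [hS] at this
  exact this

end lev

end Pool.Agent.R778.ZS
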